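import Pool.Agent.N662.FP.Stm2

set_option autoImplicit false

namespace Pool.Agent.N335.FM

open Pool.Agent.N662.FP

private theorem ps_sub (x : Sym2 (ℤ × ℤ) → ℝ) (a v : ℤ × ℤ) : PS x a v ⊆ PS x v a := by
  rintro s ⟨n, p, h0, hn, hst, hs⟩
  refine ⟨n, fun i => p (n - i), ?_, ?_, ?_, ?_⟩
  · show p (n - 0) = v
    rw [Nat.sub_zero, hn]
  · show p (n - n) = a
    rw [Nat.sub_self, h0]
  · intro i hi
    have h := hst (n - (i + 1)) (by omega)
    have e : n - (i + 1) + 1 = n - i := by omega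
    rw [e] at h
    show |(p (n - (i + 1))).1 - (p (n - i)).1| + |(p (n - (i + 1))).2 - (p (n - i)).2| = 1
    rw [abs_sub_comm, abs_sub_comm (p (n - (i + 1))).2]
    exact h
  · rw [hs, ← Finset.sum_range_reflect]
    apply Finset.sum_congr rfl
    intro i hi
    rw [Finset.mem_range] at hi
    show x s(p (n - 1 - i), p (n - 1 - i + 1)) = x s(p (n - i), p (n - (i + 1)))
    have e1 : n - 1 - i + 1 = n - i := by omega
    have e2 : n - 1 - i = n - (i + 1) := by omega
    rw [e1, e2, Sym2.eq_swap]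

theorem t_REV : S_REV := by
  intro x a v
  unfold D
  rw [Set.Subset.antisymm (ps_sub x a v) (ps_sub x v a)]

private theorem cut (x : Sym2 (ℤ × ℤ) → ℝ) (hx : ∀ e, 0 ≤ x e) (a v : ℤ × ℤ) (n : ℕ)
    (p : ℕ → ℤ × ℤ) (h0 : p 0 = a) (hn : p n = v)
    (hst : ∀ i < n, |(p (i + 1)).1 - (p i).1| + |(p (i + 1)).2 - (p i).2| = 1)
    (i j : ℕ) (hij : i < j) (hj : j ≤ n) (hp : p i = p j) :
    ∃ q : ℕ → ℤ × ℤ, q 0 = a ∧ q (n - (j - i)) = v ∧
      (∀ k < n - (j - i), |(q (k + 1)).1 - (q k).1| + |(q (k + 1)).2 - (q k).2| = 1) ∧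
      ∑ k ∈ Finset.range (n - (j - i)), x s(q k, q (k + 1)) ≤
        ∑ k ∈ Finset.range n, x s(p k, p (k + 1)) := by
  set q : ℕ → ℤ × ℤ := fun k => if k ≤ i then p k else p (k + (j - i)) with hq
  set σ : ℕ → ℕ := fun k => if k < i then k else k + (j - i) with hσ
  have k1 : ∀ k, q k = p (σ k) := by
    intro k
    simp only [hq, hσ]
    rcases lt_trichotomy k i with h | h | h
    · rw [if_pos h.le, if_pos h]
    · subst h
      rw [if_pos le_rfl, if_neg (lt_irrefl _), hp]
      congr 1; omega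
    · rw [if_neg (by omega), if_neg (by omega)]
  have k2 : ∀ k, q (k + 1) = p (σ k + 1) := by
    intro k
    simp only [hq, hσ]
    by_cases h : k < i
    · rw [if_pos (by omega), if_pos h]
    · rw [if_neg (by omega), if_neg h]
      congr 1; omega
  have k3 : ∀ k < n - (j - i), σ k < n := by
    intro k hk
    simp only [hσ]
    split_ifs <;> omega
  refine ⟨q, ?_, ?_, ?_, ?_⟩
  · simp only [hq]; rw [if_pos (Nat.zero_le _), h0]
  · simp only [hq]
    by_cases h : n - (j - i) ≤ i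
    · rw [if_pos h]
      have e1 : n - (j - i) = i := by omega
      have e2 : j = n := by omega
      rw [e1, hp, e2, hn]
    · rw [if_neg h, ← hn]
      congr 1; omega
  · intro k hk
    rw [k2 k, k1 k]
    exact hst _ (k3 k hk)
  · have e : ∑ k ∈ Finset.range (n - (j - i)), x s(q k, q (k + 1)) =
        ∑ l ∈ (Finset.range (n - (j - i))).image σ, x s(p l, p (l + 1)) := by
      rw [Finset.sum_image]
      · apply Finset.sum_congr rfl
        intro k _
        rw [k2 k, k1 k]
      · intro k _ l _ hkl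
        simp only [hσ] at hkl
        split_ifs at hkl <;> omega
    rw [e]
    apply Finset.sum_le_sum_of_subset_of_nonneg
    · intro l hl
      rw [Finset.mem_image] at hl
      obtain ⟨k, hk, rfl⟩ := hl
      rw [Finset.mem_range] at hk ⊢
      exact k3 k hk
    · intro l _ _
      exact hx _

theorem t_SAW : S_SAW := by
  classical
  intro x hx a v s hs
  have hex : ∃ n : ℕ, ∃ p : ℕ → ℤ × ℤ, p 0 = a ∧ p n = v ∧
      (∀ i < n, |(p (i + 1)).1 - (p i).1| + |(p (i + 1)).2 - (p i).2| = 1) ∧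
      ∑ i ∈ Finset.range n, x s(p i, p (i + 1)) ≤ s := by
    obtain ⟨n, p, h0, hn, hst, hs⟩ := hs
    exact ⟨n, p, h0, hn, hst, hs.ge⟩
  obtain ⟨p, h0, hn, hst, hsum⟩ := Nat.find_spec hex
  have key : ∀ i j, i < j → j ≤ Nat.find hex → p i ≠ p j := by
    intro i j hij hj hp
    obtain ⟨q, q0, qn, qst, qs⟩ := cut x hx a v _ p h0 hn hst i j hij hj hp
    exact Nat.find_min hex (m := Nat.find hex - (j - i)) (by omega) ⟨q, q0, qn, qst, qs.trans hsum⟩
  refine ⟨Nat.find hex, p, h0, hn, hst, ?_, hsum⟩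
  intro i hi j hj hp
  rcases lt_trichotomy i j with h | h | h
  · exact absurd hp (key i j h hj)
  · exact h
  · exact absurd hp.symm (key j i h hi)

end Pool.Agent.N335.FM
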